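import Pool.Agent.Helper454.EL.Both

set_option autoImplicit false

namespace Pool.Agent.Results.MP_c09308_co.TwoClasses

/-- For every `n ≥ 3`, the largest number of vertices covered by a 3-chromatic `n`-uniform clique
which has a colouring with `2 n - 1` colours giving the vertices of each edge distinct colours, or
which contains all `n`-subsets of some set of `2 n - 3` vertices, is exactly
`C(2n-2, n-1) / 2 + 2n - 2`; for `n ≥ 4` this is at most the value `2 C(2n-4, n-2) + 2n - 4` of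
Tuza's conjecture, with strict inequality for `n ≥ 5`. -/
theorem result (n : ℕ) (hn : 3 ≤ n) :
    IsGreatest {m : ℕ | ∃ F : Finset (Finset ℕ),
      (∀ e ∈ F, e.card = n) ∧
      (∀ e ∈ F, ∀ f ∈ F, (e ∩ f).Nonempty) ∧
      (¬ ∃ c : ℕ → Fin 2, ∀ e ∈ F, ∃ x ∈ e, ∃ y ∈ e, c x ≠ c y) ∧
      (∃ c : ℕ → Fin 3, ∀ e ∈ F, ∃ x ∈ e, ∃ y ∈ e, c x ≠ c y) ∧
      ((∃ c : ℕ → Fin (2 * n - 1), ∀ e ∈ F, ∀ x ∈ e, ∀ y ∈ e, c x = c y → x = y) ∨
        (∃ S : Finset ℕ, S.card = 2 * n - 3 ∧ ∀ A ⊆ S, A.card = n → A ∈ F)) ∧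
      m = (F.biUnion id).card}
      ((2 * n - 2).choose (n - 1) / 2 + (2 * n - 2)) ∧
    (4 ≤ n →
      (2 * n - 2).choose (n - 1) / 2 + (2 * n - 2) ≤
        2 * (2 * n - 4).choose (n - 2) + 2 * n - 4) ∧
    (5 ≤ n →
      (2 * n - 2).choose (n - 1) / 2 + (2 * n - 2) <
        2 * (2 * n - 4).choose (n - 2) + 2 * n - 4) :=
  ⟨Pool.Agent.Helper454.EL.greatest_both n hn,
    fun h => (Pool.Agent.Helper454.EL.compare n h).1,
    fun h => (Pool.Agent.Helper454.EL.compare n (by omega)).2 h⟩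

end Pool.Agent.Results.MP_c09308_co.TwoClasses
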